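import Pool.Agent.helper99.VN.SpecU

/-!
# Project VN (MP_07c750_an), row CLSN: the classes of undetected chains
-/

set_option autoImplicit false

open scoped MatrixGroups ContDiff Topology UpperHalfPlane ComplexConjugate ENNReal
open UpperHalfPlane MeasureTheory Filter Set

namespace Pool.Agent.VN

open Pool.Agent.RS Pool.Agent.VQ
open Pool.Agent.RPQ (Net Cl)

open scoped Classical in
/-- the finite set of the next states -/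
theorem CLSN_next {Γ : Subgroup SL(2, ℝ)} (n : ℕ) (hn : ∀ z w : ℍ, {γ : Γ | dist z ((γ : SL(2, ℝ)) • w) ≤ 8}.Finite ∧ {γ : Γ | dist z ((γ : SL(2, ℝ)) • w) ≤ 8}.ncard ≤ n)
    (L : ℕ) (z : ℍ) (w : ℕ → ℍ) : ∃ X : Finset (Γ × ℕ × ℕ), X.card ≤ (L + 1) * (4 * n) ∧
      ∀ (γ : Γ) (k m : ℕ), k ≤ L → m < 4 → dist z ((γ : SL(2, ℝ)) • w k) ≤ 8 → (γ, k, m) ∈ X := by
  refine ⟨(Finset.range (L + 1)).biUnion fun k => (Finset.range 4).biUnion fun m => (hn z (w k)).1.toFinset.image fun γ => (γ, k, m), ?_, ?_⟩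
  · have h1 : ∀ k : ℕ, ((Finset.range 4).biUnion fun m => (hn z (w k)).1.toFinset.image fun γ : Γ => (γ, k, m)).card ≤ 4 * n := by
      intro k
      refine (Finset.card_biUnion_le_card_mul _ _ n fun m _ => ?_).trans (by rw [Finset.card_range])
      refine Finset.card_image_le.trans ?_
      rw [← Set.ncard_eq_toFinset_card _ (hn z (w k)).1]
      exact (hn z (w k)).2
    refine (Finset.card_biUnion_le_card_mul _ _ (4 * n) fun k _ => h1 k).trans (by rw [Finset.card_range])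
  · intro γ k m hk hm hd
    rw [Finset.mem_biUnion]
    refine ⟨k, Finset.mem_range.2 (by omega), ?_⟩
    rw [Finset.mem_biUnion]
    refine ⟨m, Finset.mem_range.2 hm, ?_⟩
    rw [Finset.mem_image]
    exact ⟨γ, (Set.Finite.mem_toFinset _).2 hd, rfl⟩

theorem CLSN_fr0 (D : Dyn) (t : ℝ) (w : ℕ → SL(2, ℝ) × ℝ) (hf0 : ∀ E g, D.fl E 0 g = g) : frZ D t w 0 = (w 0).1 := by
  unfold frZ
  rw [zero_div, Nat.floor_zero, Nat.cast_zero, zero_mul, sub_zero, hf0]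

theorem CLSN_frN (D : Dyn) (t : ℝ) (w : ℕ → SL(2, ℝ) × ℝ) (N : ℕ) (ht : t ≠ 0) (hf0 : ∀ E g, D.fl E 0 g = g) :
    frZ D t w (N * t) = (w N).1 := by
  unfold frZ
  rw [mul_div_cancel_right₀ _ ht, Nat.floor_natCast, sub_self, hf0]

/-- the classes, from the transition estimate -/
theorem CLSN_main (hPTHN : PTHN_stmt) {Γ : Subgroup SL(2, ℝ)} (D : Dyn) (ε e1 Λ t : ℝ) (N n : ℕ) (x y : SL(2, ℝ) × ℝ)
    (w : ℕ → SL(2, ℝ) × ℝ) (hf0 : ∀ E g, D.fl E 0 g = g) (hkI : ∀ (g : SL(2, ℝ)) (θ : ℝ), ((g * kM θ) • I : ℍ) = g • I)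
    (ht : 1 ≤ t) (hN : 1 ≤ N) (hΛ0 : 0 < Λ) (he0 : 0 < e1)
    (hn : ∀ z w : ℍ, {γ : Γ | dist z ((γ : SL(2, ℝ)) • w) ≤ 8}.Finite ∧ {γ : Γ | dist z ((γ : SL(2, ℝ)) • w) ≤ 8}.ncard ≤ n)
    (Xs : Set (ℕ → SL(2, ℝ) × ℝ))
    (hX : ∀ w' ∈ Xs, w' 0 = x ∧ (∃ γ : Γ, w' N = γ • y) ∧
      (∀ i : ℕ, i * Λ < N * t → ∃ a : Γ × ℕ × ℕ, Stt D t ε e1 Λ N w w' i a) ∧
      ∀ (i : ℕ) (v : ℝ) (a : Γ × ℕ × ℕ), 0 ≤ v → v ≤ Λ → i * Λ + v ≤ N * t → Stt D t ε e1 Λ N w w' i a →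
        dist (frZ D t w' (i * Λ + v) • I : ℍ) (D.fl 0 v ((a.1 : SL(2, ℝ)) * frZ D t w (a.2.1 * e1) * kM (a.2.2 * (Real.pi / 2))) • I) ≤ 4) :
    ∃ cl : (ℕ → SL(2, ℝ) × ℝ) → ℕ, ∀ w' ∈ Xs, cl w' < ((⌊N * t / e1⌋₊ + 1) * (4 * n)) ^ ⌈N * t / Λ⌉₊ * n ∧
      ∀ w'' ∈ Xs, cl w'' = cl w' → w'' N = w' N ∧
        ∀ i : ℕ, i < ⌈N * t / Λ⌉₊ → ∃ a : Γ × ℕ × ℕ, Stt D t ε e1 Λ N w w' i a ∧ Stt D t ε e1 Λ N w w'' i a := by
  have hNr : (1 : ℝ) ≤ N := by exact_mod_cast hN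
  obtain ⟨T, hTd⟩ : ∃ T : ℝ, T = N * t := ⟨_, rfl⟩
  have hT : 1 ≤ T := by rw [hTd]; nlinarith
  have hTΛ : 0 < T / Λ := by positivity
  obtain ⟨S, hSd⟩ : ∃ S : ℕ, S = ⌈T / Λ⌉₊ := ⟨_, rfl⟩
  rw [← hTd, ← hSd]
  have hS1 : 1 ≤ S := by rw [hSd]; exact Nat.ceil_pos.2 hTΛ
  have hSlt : ∀ i : ℕ, i < S → (i : ℝ) * Λ < T := by
    intro i hi
    rw [hSd, Nat.lt_ceil, lt_div_iff₀ hΛ0] at hi
    exact hi
  have hSle : T ≤ S * Λ := by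
    rw [← div_le_iff₀ hΛ0, hSd]
    exact Nat.le_ceil _
  obtain ⟨W, hW⟩ : ∃ W : ℕ → ℍ, W = fun k : ℕ => frZ D t w ((k : ℝ) * e1) • I := ⟨_, rfl⟩
  have hnext := fun z : ℍ => CLSN_next (Γ := Γ) n hn ⌊T / e1⌋₊ z W
  choose X hX1 hX2 using hnext
  obtain ⟨zz, hzz⟩ : ∃ zz : ℝ → Γ × ℕ × ℕ → ℍ, zz = fun v a =>
    ((D.fl 0 v ((a.1 : SL(2, ℝ)) * frZ D t w (a.2.1 * e1) * kM (a.2.2 * (Real.pi / 2)))) • I : ℍ) := ⟨_, rfl⟩
  obtain ⟨vE, hvE⟩ : ∃ vE : ℝ, vE = T - ((S - 1 : ℕ) : ℝ) * Λ := ⟨_, rfl⟩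
  -- the states
  have hex : ∀ (w' : ℕ → SL(2, ℝ) × ℝ) (i : ℕ), ∃ a : Γ × ℕ × ℕ, w' ∈ Xs → i < S → Stt D t ε e1 Λ N w w' i a := by
    intro w' i
    by_cases h : w' ∈ Xs ∧ i < S
    · obtain ⟨a, ha⟩ := (hX w' h.1).2.2.1 i (by rw [← hTd]; exact hSlt i h.2)
      exact ⟨a, fun _ _ => ha⟩
    · exact ⟨(1, 0, 0), fun h1 h2 => absurd ⟨h1, h2⟩ h⟩
  choose st hst using hex
  have hexe : ∀ w' : ℕ → SL(2, ℝ) × ℝ, ∃ γ : Γ, w' ∈ Xs → w' N = γ • y := by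
    intro w'
    by_cases h : w' ∈ Xs
    · obtain ⟨γ, hγ⟩ := (hX w' h).2.1
      exact ⟨γ, fun _ => hγ⟩
    · exact ⟨1, fun h1 => absurd h1 h⟩
  choose en hen using hexe
  -- floors
  have hfl : ∀ s : ℝ, s < T → ⌊s / e1⌋₊ ≤ ⌊T / e1⌋₊ := fun s hs => Nat.floor_le_floor (div_le_div_of_nonneg_right hs.le he0.le)
  have hpos : ∀ (w' : ℕ → SL(2, ℝ) × ℝ) (i : ℕ) (a : Γ × ℕ × ℕ), w' ∈ Xs → (i : ℝ) * Λ < T → Stt D t ε e1 Λ N w w' i a →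
      a.2.1 ≤ ⌊T / e1⌋₊ ∧ a.2.2 < 4 ∧ dist (frZ D t w' (i * Λ) • I : ℍ) ((a.1 : SL(2, ℝ)) • W a.2.1) ≤ 4 := by
    intro w' i a hw' hi ha
    have h4 := (hX w' hw').2.2.2 i 0 a le_rfl hΛ0.le (by rw [add_zero, ← hTd]; exact hi.le) ha
    rw [add_zero, hf0, hkI, mul_smul] at h4
    obtain ⟨s, hs0, hs1, hk, hm, -⟩ := ha
    refine ⟨?_, hm, ?_⟩
    · rw [hk]
      exact hfl s (by rw [hTd]; exact hs1)
    · rw [hW]
      exact h4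
  obtain ⟨cl, hcl⟩ := hPTHN (Γ × ℕ × ℕ) Γ (ℕ → SL(2, ℝ) × ℝ) ((⌊T / e1⌋₊ + 1) * (4 * n)) n S (X (x.1 • I)) (fun a => X (zz Λ a))
    (fun a => (hn (zz vE a) (y.1 • I)).1.toFinset) Xs st en hS1 (hX1 _) (fun a => hX1 _) (fun a => by
      rw [← Set.ncard_eq_toFinset_card _ (hn (zz vE a) (y.1 • I)).1]
      exact (hn _ _).2) (by
    intro w' hw'
    obtain ⟨hw0, -, -, hT4⟩ := hX w' hw'
    refine ⟨?_, ?_, ?_⟩
    · obtain ⟨g1, g2, g3⟩ := hpos w' 0 (st w' 0) hw' (by rw [Nat.cast_zero, zero_mul]; linarith) (hst w' 0 hw' (by omega))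
      rw [Nat.cast_zero, zero_mul, CLSN_fr0 D t w' hf0, hw0] at g3
      exact hX2 _ _ _ _ g1 g2 (g3.trans (by norm_num))
    · intro i hi
      have e : ((i + 1 : ℕ) : ℝ) * Λ = i * Λ + Λ := by push_cast; ring
      have hlt := hSlt (i + 1) hi
      obtain ⟨g1, g2, g3⟩ := hpos w' (i + 1) (st w' (i + 1)) hw' hlt (hst w' (i + 1) hw' hi)
      have h6 := hT4 i Λ (st w' i) hΛ0.le le_rfl (by rw [← e, ← hTd]; exact hlt.le) (hst w' i hw' (by omega))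
      rw [← e] at h6
      refine hX2 _ _ _ _ g1 g2 ?_
      rw [dist_comm] at h6
      rw [hzz]
      exact (dist_triangle _ _ _).trans ((add_le_add h6 g3).trans (by norm_num))
    · have hlt := hSlt (S - 1) (by omega)
      have hvE0 : 0 ≤ vE := by rw [hvE]; linarith
      have hvE1 : vE ≤ Λ := by
        have e : ((S - 1 : ℕ) : ℝ) = S - 1 := by
          rw [Nat.cast_sub hS1, Nat.cast_one]
        rw [hvE, e]
        linarith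
      have e2 : ((S - 1 : ℕ) : ℝ) * Λ + vE = N * t := by rw [hvE, ← hTd]; ring
      have h6 := hT4 (S - 1) vE (st w' (S - 1)) hvE0 hvE1 e2.le (hst w' (S - 1) hw' (by omega))
      have e3 : ((en w' • y : SL(2, ℝ) × ℝ)).1 = (en w' : SL(2, ℝ)) * y.1 := rfl
      rw [e2, CLSN_frN D t w' N (by linarith) hf0, hen w' hw', e3, mul_smul (en w' : SL(2, ℝ)) y.1] at h6
      rw [Set.Finite.mem_toFinset, Set.mem_ofPred_eq, dist_comm, hzz]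
      exact h6.trans (by norm_num))
  refine ⟨cl, fun w' hw' => ⟨(hcl w' hw').1, fun w'' hw'' he => ?_⟩⟩
  obtain ⟨h1, h2⟩ := (hcl w' hw').2 w'' hw'' he
  refine ⟨?_, fun i hi => ⟨st w' i, hst w' i hw' hi, ?_⟩⟩
  · rw [hen w' hw', hen w'' hw'', h1]
  · rw [← h2 i hi]
    exact hst w'' i hw'' hi

theorem CLSN_proof (hPIVN : PIVN_stmt) (hTRSN : TRSN_stmt) (hRCLN : RCLN_stmt) (hPTHN : PTHN_stmt) (hINJ : RPQ.INJ_stmt) (hGLC : GLC_stmt) :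
    CLSN_stmt := by
  intro Γ κ k B hΓ hk eps heps
  obtain ⟨CP, ρP, hCP, hρP0, hρP1, hPIV⟩ := hPIVN Γ κ k B hΓ hk
  obtain ⟨CT, hCT, hTRS⟩ := hTRSN Γ k B hΓ hk
  obtain ⟨CR, hCR, hRCL⟩ := hRCLN Γ k B hΓ hk
  obtain ⟨ρT, hρT0, hρT1, hTRS⟩ := hTRS CP hCP
  obtain ⟨e10, he100, he101, hRCL⟩ := hRCL eps heps
  obtain ⟨ρR, hρR0, hρR1, hRCL⟩ := hRCL CP hCP
  obtain ⟨_, hcount⟩ := hINJ Γ hΓ
  obtain ⟨n, hn⟩ := hcount 8
  have hkI : ∀ (g : SL(2, ℝ)) (θ : ℝ), ((g * kM θ) • I : ℍ) = g • I := by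
    intro g θ
    rw [mul_smul]
    obtain ⟨_, _, _, _, _, _, _, _, _, _, _, _, _, _, _, hkI, _⟩ := hGLC
    rw [hkI]
  have hn0 : (0 : ℝ) ≤ n := Nat.cast_nonneg n
  obtain ⟨e1, he1⟩ : ∃ e1 : ℝ, e1 = min e10 (1 / CT) := ⟨_, rfl⟩
  have he1R : e1 ≤ e10 := by rw [he1]; exact min_le_left _ _
  have he1T : e1 ≤ 1 / CT := by rw [he1]; exact min_le_right _ _
  have he10 : 0 < e1 := by rw [he1]; exact lt_min he100 (by positivity)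
  have he11 : e1 ≤ 1 := he1R.trans he101
  have hne : (n : ℝ) ≤ n / e1 := by
    rw [le_div_iff₀ he10]
    nlinarith
  have hne0 : 0 ≤ (n : ℝ) / e1 := by positivity
  refine ⟨CP + 4 * (n / e1) + 2 * (CT + CR), min (min ρP k) (min ρT ρR), by linarith,
    lt_min (lt_min hρP0 hk) (lt_min hρT0 hρR0), ((min_le_right _ _).trans (min_le_left _ _)).trans hρT1, ?_⟩
  intro C0 ρ ρ1 r K t J p χ N nc D x y w hD hN hρ hr hrρ hρ1 ht hlogt hK hnc hNet hw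
  have hρ0 : 0 < ρ1 := hr.trans_le hrρ
  have hρP' : ρ1 ≤ ρP := hρ1.trans ((min_le_left _ _).trans (min_le_left _ _))
  have hρk : ρ1 ≤ k := hρ1.trans ((min_le_left _ _).trans (min_le_right _ _))
  have hρT' : ρ1 ≤ ρT := hρ1.trans ((min_le_right _ _).trans (min_le_left _ _))
  have hρR' : ρ1 ≤ ρR := hρ1.trans ((min_le_right _ _).trans (min_le_right _ _))
  have hρ8 : ρ1 ≤ 1 / 8 := hρT'.trans hρT1
  have hlog1 : Real.log (1 / ρ1) = -Real.log ρ1 := by rw [one_div, Real.log_inv]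
  have hlog0 : 0 < Real.log (1 / ρ1) := by
    rw [hlog1]
    have := Real.log_neg hρ0 (by linarith)
    linarith
  have hNr : (1 : ℝ) ≤ N := by exact_mod_cast hN
  obtain ⟨T, hTd⟩ : ∃ T : ℝ, T = N * t := ⟨_, rfl⟩
  have hT : 1 ≤ T := by rw [hTd]; nlinarith
  obtain ⟨Λ, hΛ⟩ : ∃ Λ : ℝ, Λ = Real.log (1 / ρ1) / (2 * (CT + CR)) := ⟨_, rfl⟩
  have hC0 : 0 < CT + CR := by linarith
  have hΛ0 : 0 < Λ := by rw [hΛ]; positivity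
  have hΛt : Λ ≤ t := by
    rw [hΛ, div_le_iff₀ (by linarith : (0 : ℝ) < 2 * (CT + CR))]
    nlinarith
  have hexpΛ : Real.exp ((CT + CR) * Λ) ≤ ρ1 ^ (-(1 / 2) : ℝ) := by
    rw [Real.rpow_def_of_pos hρ0]
    refine Real.exp_le_exp.2 (le_of_eq ?_)
    rw [hΛ, one_div, Real.log_inv]
    field_simp
  have hexpT : Real.exp (CT * Λ) ≤ ρ1 ^ (-(1 / 2) : ℝ) :=
    (Real.exp_le_exp.2 (mul_le_mul_of_nonneg_right (by linarith) hΛ0.le)).trans hexpΛ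
  have hexpR : Real.exp (CR * Λ) ≤ ρ1 ^ (-(1 / 2) : ℝ) :=
    (Real.exp_le_exp.2 (mul_le_mul_of_nonneg_right (by linarith) hΛ0.le)).trans hexpΛ
  have hKP : CP / ρ ≤ |K| := by
    refine le_trans ?_ hK
    exact div_le_div_of_nonneg_right (by linarith) hρ.le
  have hcond : (nc : ℝ) + CP * (N * t + 1) / ρ1 ≤ ρ1 / (CP * ρ) := by
    have h1 : CP * (N * t + 1) / ρ1 ≤ (CP + 4 * (n / e1) + 2 * (CT + CR)) * (N * t + 1) / ρ1 := by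
      refine div_le_div_of_nonneg_right (mul_le_mul_of_nonneg_right (by linarith) ?_) hρ0.le
      rw [← hTd]; linarith
    have h2 : ρ1 / ((CP + 4 * (n / e1) + 2 * (CT + CR)) * ρ) ≤ ρ1 / (CP * ρ) := by
      apply div_le_div_of_nonneg_left hρ0.le (by positivity)
      exact mul_le_mul_of_nonneg_right (by linarith) hρ.le
    linarith
  obtain ⟨Xs, hXs⟩ : ∃ Xs : Set (ℕ → SL(2, ℝ) × ℝ), Xs = {w' | w' 0 = x ∧ (∃ γ : Γ, w' N = γ • y) ∧ JP D t r N w' ∧ UndV D χ K t N nc w w'} := ⟨_, rfl⟩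
  have hmain := CLSN_main hPTHN (Γ := Γ) D (CP * ρ1) e1 Λ t N n x y w hD.fl0 hkI ht hN hΛ0 he10 hn Xs (by
    intro w' hw'
    rw [hXs] at hw'
    obtain ⟨hw0, hwN, hwJ, hwU⟩ := hw'
    refine ⟨hw0, hwN, ?_, ?_⟩
    · intro i hi
      obtain ⟨s, γ, hs0, hs1, m, hm, hnr⟩ := hPIV C0 ρ ρ1 K t J p χ N nc D w w' hD hρ hρ0 hρP' ht hKP hcond hNet
        (fun j hj => ⟨((hw j hj).2.1.trans hrρ).trans hρk, ((hwJ j hj).2.1.trans hrρ).trans hρk⟩) hwU (i * Λ) (by positivity) hi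
      exact ⟨(γ, ⌊s / e1⌋₊, m), s, hs0, hs1, rfl, hm, hnr⟩
    · exact hTRS D ρ1 t r e1 Λ N w w' hD hN hr hrρ hρT' ht he10 he1T hΛ0 hΛt hexpT hw hwJ)
  obtain ⟨cl, hcl⟩ := hmain
  refine ⟨((⌊N * t / e1⌋₊ + 1) * (4 * n)) ^ ⌈N * t / Λ⌉₊ * n, cl, ?_, ?_⟩
  · rw [← hTd]
    have hTΛ : 0 < T / Λ := by positivity
    obtain ⟨S, hSd⟩ : ∃ S : ℕ, S = ⌈T / Λ⌉₊ := ⟨_, rfl⟩
    have hSup : (S : ℝ) < T / Λ + 1 := by
      rw [hSd]; exact Nat.ceil_lt_add_one hTΛ.le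
    rw [← hSd]
    have hQ1 : 1 ≤ (CP + 4 * (n / e1) + 2 * (CT + CR)) * (T + 1) := by nlinarith
    have hq : (((⌊T / e1⌋₊ + 1) * (4 * n) : ℕ) : ℝ) ≤ (CP + 4 * (n / e1) + 2 * (CT + CR)) * (T + 1) := by
      push_cast
      have h1 : (⌊T / e1⌋₊ : ℝ) ≤ T / e1 := Nat.floor_le (by positivity)
      calc ((⌊T / e1⌋₊ : ℝ) + 1) * (4 * n) ≤ (T / e1 + 1) * (4 * n) := mul_le_mul_of_nonneg_right (by linarith) (by positivity)
        _ = 4 * (n / e1) * T + 4 * n := by ring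
        _ ≤ 4 * (n / e1) * T + 4 * (n / e1) := by linarith
        _ = 4 * (n / e1) * (T + 1) := by ring
        _ ≤ (CP + 4 * (n / e1) + 2 * (CT + CR)) * (T + 1) := mul_le_mul_of_nonneg_right (by linarith) (by linarith)
    have hnQ : (n : ℝ) ≤ (CP + 4 * (n / e1) + 2 * (CT + CR)) * (T + 1) := by nlinarith
    have hexpo : T / Λ ≤ (CP + 4 * (n / e1) + 2 * (CT + CR)) * T / Real.log (1 / ρ1) := by
      have e : T / Λ = (2 * (CT + CR)) * T / Real.log (1 / ρ1) := by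
        rw [hΛ]
        field_simp
      rw [e]
      exact div_le_div_of_nonneg_right (mul_le_mul_of_nonneg_right (by linarith) (by linarith)) hlog0.le
    have e5 : (CP + 4 * (n / e1) + 2 * (CT + CR)) * N * t = (CP + 4 * (n / e1) + 2 * (CT + CR)) * T := by rw [hTd]; ring
    rw [e5]
    calc ((((⌊T / e1⌋₊ + 1) * (4 * n)) ^ S * n : ℕ) : ℝ) = (((⌊T / e1⌋₊ + 1) * (4 * n) : ℕ) : ℝ) ^ S * n := by push_cast; ring
      _ ≤ ((CP + 4 * (n / e1) + 2 * (CT + CR)) * (T + 1)) ^ S * ((CP + 4 * (n / e1) + 2 * (CT + CR)) * (T + 1)) :=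
          mul_le_mul (pow_le_pow_left₀ (Nat.cast_nonneg _) hq S) hnQ hn0 (by positivity)
      _ = ((CP + 4 * (n / e1) + 2 * (CT + CR)) * (T + 1)) ^ (((S + 1 : ℕ) : ℝ)) := by rw [Real.rpow_natCast, pow_succ]
      _ ≤ ((CP + 4 * (n / e1) + 2 * (CT + CR)) * (T + 1)) ^ ((CP + 4 * (n / e1) + 2 * (CT + CR)) * T / Real.log (1 / ρ1) + 3) := by
          refine Real.rpow_le_rpow_of_exponent_le hQ1 ?_
          push_cast
          linarith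
  · intro w' hw0 hwN hwJ hwU
    have hmem : w' ∈ Xs := by
      rw [hXs]
      exact ⟨hw0, hwN, hwJ, hwU⟩
    refine ⟨(hcl w' hmem).1, ?_⟩
    intro w'' hw0' hwN' hwJ' hwU' he
    have hmem' : w'' ∈ Xs := by
      rw [hXs]
      exact ⟨hw0', hwN', hwJ', hwU'⟩
    obtain ⟨g1, g2⟩ := (hcl w' hmem).2 w'' hmem' he
    refine ⟨g1, ?_⟩
    intro s hs0 hs1
    obtain ⟨i, hi⟩ : ∃ i : ℕ, i = ⌊s / Λ⌋₊ := ⟨_, rfl⟩
    have hi1 : (i : ℝ) * Λ ≤ s := by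
      rw [← le_div_iff₀ hΛ0, hi]
      exact Nat.floor_le (by positivity)
    have hi2 : s < (i + 1) * Λ := by
      rw [← div_lt_iff₀ hΛ0, hi]
      exact Nat.lt_floor_add_one _
    have hiS : i < ⌈N * t / Λ⌉₊ := by
      rw [Nat.lt_ceil, lt_div_iff₀ hΛ0]
      linarith
    obtain ⟨a, ha1, ha2⟩ := g2 i hiS
    have e : (i : ℝ) * Λ + (s - i * Λ) = s := by ring
    have h := hRCL D ρ1 t r e1 Λ N w w' w'' hD hN hr hrρ hρR' ht he10 he1R hΛ0 hΛt hexpR hw hwJ hwJ' i (s - i * Λ) a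
      (by linarith) (by linarith) (by rw [e]; exact hs1.le) ha1 ha2
    rw [e] at h
    exact h

end Pool.Agent.VN
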