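import Pool.Agent.helper74.VN.SpecC
import Pool.Agent.helper72.VQ.VNP

/-!
# MP_07c750_an, project VN, row NNP: the norm of a beam (copy of helper72/VQ/VNP.lean)
-/

set_option autoImplicit false

open scoped MatrixGroups ContDiff Topology UpperHalfPlane ComplexConjugate ENNReal
open UpperHalfPlane MeasureTheory Filter Set

namespace Pool.Agent.VN

open Pool.Agent.RS Pool.Agent.VQ

noncomputable section

theorem NNP_proof (hVCD : VCD_stmt) (hVCM : VCM_stmt) (hVBR : VBR_stmt) (hNYA : NYA_stmt) : NNP_stmt := by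
  intro k _
  refine ⟨8, by norm_num, ?_⟩
  intro ch e ζ ζ1 B hch hRg
  obtain ⟨-, hζ, hζζ1, -, hζ1⟩ := hRg
  have hζ1' : ζ1 ≤ 1 / 8 := by linarith
  have hζ' : ζ ≤ 1 / 8 := hζζ1.trans hζ1'
  obtain ⟨R1, hR1, hB⟩ := hVBR ch ζ hch hζ hζ'
  refine ⟨max R1 1024, le_max_of_le_left hR1, ?_⟩
  intro R t Γ D p hR hD hp ht0 ht
  have hRR : 1024 ≤ R := (le_max_right _ _).trans hR
  have hR0 : 0 < R := by linarith
  have hR1' : 1 ≤ R := by linarith
  obtain ⟨-, hbs, hb, -, hbR1, hbR2, hcb, -, hcR⟩ := hB R ((le_max_left _ _).trans hR)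
  obtain ⟨n1, n2, n3, n4, n5⟩ := VNP_num R hRR
  obtain ⟨y1, -, y3, y4, y5, -, -⟩ := hNYA Γ k B D hD p.2 t p.1 hp
  obtain ⟨m1, m2, m3⟩ := VNP_mat (D.Y p.2 t p.1) (D.P p.2 t p.1) (D.a p.2 t p.1) y1 y3 y4 y5
  change 0 < (D.M p.2 t p.1 0 0).im at m1
  change 0 < (D.M p.2 t p.1 0 0).im * (D.M p.2 t p.1 1 1).im - (D.M p.2 t p.1 0 1).im ^ 2 at m2
  change ‖D.a p.2 t p.1‖ ^ 2 = Real.sqrt ((D.M p.2 t p.1 0 0).im * (D.M p.2 t p.1 1 1).im - (D.M p.2 t p.1 0 1).im ^ 2) at m3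
  set x : ℝ := R ^ (-(3 / 4) : ℝ) with hx
  set y : ℝ := R ^ (-(1 / 2) : ℝ) with hy
  set w : ℝ := R ^ (-(1 / 5) : ℝ) with hw
  have hc0 : 0 ≤ cR ch ζ R := Real.sqrt_nonneg _
  have hpi := Real.pi_pos
  -- the constant
  have hconst : (1 + x) * (cR ch ζ R ^ 2 * (Real.pi / R)) ≤ (1 + w) * (R ^ 2 / (2 * Real.pi)) := by
    have e1 : cR ch ζ R ^ 2 * ((1 - y) * (Real.pi / R)) ≤ R ^ 2 / (2 * Real.pi) := by
      rw [← hcb]
      exact mul_le_mul_of_nonneg_left hbR1 (by positivity)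
    have e2 : 1 + x ≤ (1 + w) * (1 - y) := by nlinarith
    calc (1 + x) * (cR ch ζ R ^ 2 * (Real.pi / R)) ≤ ((1 + w) * (1 - y)) * (cR ch ζ R ^ 2 * (Real.pi / R)) :=
          mul_le_mul_of_nonneg_right e2 (by positivity)
      _ = (1 + w) * (cR ch ζ R ^ 2 * ((1 - y) * (Real.pi / R))) := by ring
      _ ≤ _ := mul_le_mul_of_nonneg_left e1 (by linarith)
  have hGn : ∀ z : ℍ, ‖Gp D.U ch ζ R p z‖ = cR ch ζ R * b0 ch ζ R (cd (p.1⁻¹ • z)) := by
    intro z
    unfold Gp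
    rw [norm_mul, Complex.norm_exp_ofReal_mul_I, mul_one, Complex.norm_real, Real.norm_of_nonneg (mul_nonneg hc0 (hb _).1)]
  have hbsup : ∀ v, b0 ch ζ R v ≠ 0 → ‖v‖ ^ 2 ≤ x := by
    intro v hv
    refine VNP_sup R ζ v hR1' hζ' ?_
    by_contra hcon
    apply hv
    unfold b0
    rw [hch.zero _ (not_le.1 hcon).le, mul_zero]
  have hqf : ∀ v : ℂ, (qf (D.M p.2 t p.1) v).im = (D.M p.2 t p.1 0 0).im * v.re ^ 2 + 2 * (D.M p.2 t p.1 0 1).im * v.re * v.im +
      (D.M p.2 t p.1 1 1).im * v.im ^ 2 := fun v => VNP_qf _ y4 v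
  have hqf0 : ∀ v : ℂ, 0 ≤ (qf (D.M p.2 t p.1) v).im := by
    intro v
    rw [hqf]
    have e1 : 0 ≤ (D.M p.2 t p.1 0 0).im * ((D.M p.2 t p.1 0 0).im * v.re ^ 2 + 2 * (D.M p.2 t p.1 0 1).im * v.re * v.im +
        (D.M p.2 t p.1 1 1).im * v.im ^ 2) := by
      have e2 : (D.M p.2 t p.1 0 0).im * ((D.M p.2 t p.1 0 0).im * v.re ^ 2 + 2 * (D.M p.2 t p.1 0 1).im * v.re * v.im +
        (D.M p.2 t p.1 1 1).im * v.im ^ 2) = ((D.M p.2 t p.1 0 0).im * v.re + (D.M p.2 t p.1 0 1).im * v.im) ^ 2 +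
        ((D.M p.2 t p.1 0 0).im * (D.M p.2 t p.1 1 1).im - (D.M p.2 t p.1 0 1).im ^ 2) * v.im ^ 2 := by ring
      rw [e2]
      have e3 := mul_nonneg m2.le (sq_nonneg v.im)
      positivity
    exact nonneg_of_mul_nonneg_right e1 m1
  refine ⟨?_, ?_, ?_, ?_, ?_⟩
  · -- the beam
    obtain ⟨g1, g2⟩ := VNP_gauss R _ _ _ hR0 m1 m2
    have e1 := VNP_int hVCD hVCM (D.fl p.2 t p.1) (fun v => ‖pv D ch ζ ζ1 R t p v‖ ^ 2)
      (fun v => (cR ch ζ R ^ 2 * ‖D.a p.2 t p.1‖ ^ 2) * Real.exp (-(R * ((D.M p.2 t p.1 0 0).im * v.re ^ 2 + 2 * (D.M p.2 t p.1 0 1).im * v.re * v.im +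
      (D.M p.2 t p.1 1 1).im * v.im ^ 2)))) x n5.le (by linarith) (fun v => by positivity) ?_ ?_ (fun v => by positivity) (g1.const_mul _)
    · unfold nn
      rw [setIntegral_univ]
      refine e1.trans ?_
      rw [integral_const_mul, g2]
      refine le_trans (le_of_eq ?_) hconst
      rw [m3]
      have e2 : Real.sqrt ((D.M p.2 t p.1 0 0).im * (D.M p.2 t p.1 1 1).im - (D.M p.2 t p.1 0 1).im ^ 2) ≠ 0 := (Real.sqrt_pos.2 m2).ne'
      field_simp
    · intro v hv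
      refine VNP_sup R ζ1 v hR1' hζ1' ?_
      by_contra hcon
      apply hv
      rw [VNP_pv, hch.zero _ (not_le.1 hcon).le]
      simp
    · intro v
      rw [VNP_pv, ← hqf, mul_pow, mul_pow, sq_abs, ← Real.exp_nat_mul, mul_pow]
      have e3 : ((2 : ℕ) : ℝ) * -(R * (qf (D.M p.2 t p.1) v).im / 2) = -(R * (qf (D.M p.2 t p.1) v).im) := by push_cast; ring
      rw [e3]
      refine mul_le_mul_of_nonneg_right ?_ (Real.exp_pos _).le
      refine mul_le_mul_of_nonneg_right ?_ (by positivity)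
      have e4 := hch.bd (R ^ (1 - 2 * ζ1) * ‖v‖ ^ 2)
      have e5 : ch (R ^ (1 - 2 * ζ1) * ‖v‖ ^ 2) ^ 2 ≤ 1 := pow_le_one₀ e4.1 e4.2
      calc cR ch ζ R ^ 2 * ch (R ^ (1 - 2 * ζ1) * ‖v‖ ^ 2) ^ 2 ≤ cR ch ζ R ^ 2 * 1 := mul_le_mul_of_nonneg_left e5 (by positivity)
        _ = _ := mul_one _
  · -- the packet
    obtain ⟨g1, g2⟩ := VNP_gauss R 1 0 1 hR0 one_pos (by norm_num)
    have e1 := VNP_int hVCD hVCM p.1 (fun v => (cR ch ζ R * b0 ch ζ R v) ^ 2)
      (fun v => cR ch ζ R ^ 2 * Real.exp (-(R * (1 * v.re ^ 2 + 2 * 0 * v.re * v.im + 1 * v.im ^ 2)))) x n5.le (by linarith) (fun v => by positivity) ?_ ?_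
      (fun v => by positivity) (g1.const_mul _)
    · unfold nn
      rw [setIntegral_univ]
      simp only [hGn]
      refine e1.trans ?_
      rw [integral_const_mul, g2]
      have e2 : Real.sqrt ((1 : ℝ) * 1 - 0 ^ 2) = 1 := by norm_num
      rw [e2, mul_one]
      refine hconst.trans ?_
      have e3 : (1 + w) * (R ^ 2 / (2 * Real.pi)) ≤ 2 * (R ^ 2 / (2 * Real.pi)) := mul_le_mul_of_nonneg_right (by linarith) (by positivity)
      refine e3.trans ?_
      have e4 : 2 * (R ^ 2 / (2 * Real.pi)) = R ^ 2 / Real.pi := by field_simp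
      rw [e4, div_le_iff₀ hpi]
      have := Real.pi_gt_three
      nlinarith [sq_nonneg R]
    · intro v hv
      refine hbsup v fun h => hv ?_
      rw [h]
      ring
    · intro v
      rw [mul_pow]
      refine mul_le_mul_of_nonneg_left ?_ (by positivity)
      have e2 := pow_le_pow_left₀ (hb v).1 (hb v).2 2
      refine e2.trans (le_of_eq ?_)
      rw [← Real.exp_nat_mul, ← Complex.normSq_eq_norm_sq, Complex.normSq_apply]
      congr 1
      push_cast
      ring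
  · -- the L1 norm
    obtain ⟨g1, g2⟩ := VNP_gauss (R / 2) 1 0 1 (by linarith) one_pos (by norm_num)
    have e1 := VNP_int hVCD hVCM p.1 (fun v => cR ch ζ R * b0 ch ζ R v)
      (fun v => cR ch ζ R * Real.exp (-(R / 2 * (1 * v.re ^ 2 + 2 * 0 * v.re * v.im + 1 * v.im ^ 2)))) x n5.le (by linarith)
      (fun v => mul_nonneg hc0 (hb v).1) ?_ ?_ (fun v => by positivity) (g1.const_mul _)
    · simp only [hGn]
      refine e1.trans ?_
      rw [integral_const_mul, g2]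
      have e2 : Real.sqrt ((1 : ℝ) * 1 - 0 ^ 2) = 1 := by norm_num
      rw [e2, mul_one]
      have e3 : R ^ (3 / 2 : ℝ) = R ^ (1 / 2 : ℝ) * R := by
        rw [← Real.rpow_add_one hR0.ne']
        norm_num
      have e4 : cR ch ζ R * (Real.pi / (R / 2)) ≤ 2 * Real.pi * R ^ (1 / 2 : ℝ) := by
        calc cR ch ζ R * (Real.pi / (R / 2)) ≤ (R ^ (1 / 2 : ℝ) * R) * (Real.pi / (R / 2)) := by
              rw [← e3]
              exact mul_le_mul_of_nonneg_right hcR (by positivity)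
          _ = 2 * Real.pi * R ^ (1 / 2 : ℝ) := by field_simp
      have e5 : (1 + x) * (cR ch ζ R * (Real.pi / (R / 2))) ≤ (1 + 1 / 32) * (2 * Real.pi * R ^ (1 / 2 : ℝ)) :=
        mul_le_mul (by linarith) e4 (by positivity) (by norm_num)
      refine e5.trans ?_
      have e6 := Real.pi_lt_d2
      have e7 : 0 < R ^ (1 / 2 : ℝ) := by positivity
      calc (1 + 1 / 32) * (2 * Real.pi * R ^ (1 / 2 : ℝ)) = ((1 + 1 / 32) * 2 * Real.pi) * R ^ (1 / 2 : ℝ) := by ring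
        _ ≤ 8 * R ^ (1 / 2 : ℝ) := mul_le_mul_of_nonneg_right (by linarith) e7.le
    · intro v hv
      refine hbsup v fun h => hv ?_
      rw [h, mul_zero]
    · intro v
      refine mul_le_mul_of_nonneg_left ?_ hc0
      refine (hb v).2.trans (le_of_eq ?_)
      rw [← Complex.normSq_eq_norm_sq, Complex.normSq_apply]
      congr 1
      ring
  · intro z
    unfold psi
    rw [VNP_pv]
    have e4 := hch.bd (R ^ (1 - 2 * ζ1) * ‖cd ((D.fl p.2 t p.1)⁻¹ • z)‖ ^ 2)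
    have e5 : |cR ch ζ R * ch (R ^ (1 - 2 * ζ1) * ‖cd ((D.fl p.2 t p.1)⁻¹ • z)‖ ^ 2)| ≤ R ^ (3 / 2 : ℝ) := by
      rw [abs_of_nonneg (mul_nonneg hc0 e4.1)]
      calc _ ≤ cR ch ζ R * 1 := mul_le_mul_of_nonneg_left e4.2 hc0
        _ ≤ _ := by rw [mul_one]; exact hcR
    have e6 : Real.exp (-(R * (qf (D.M p.2 t p.1) (cd ((D.fl p.2 t p.1)⁻¹ • z))).im / 2)) ≤ 1 := by
      rw [Real.exp_le_one_iff]
      have := mul_nonneg hR0.le (hqf0 (cd ((D.fl p.2 t p.1)⁻¹ • z)))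
      linarith
    calc _ ≤ R ^ (3 / 2 : ℝ) * ‖D.a p.2 t p.1‖ * 1 :=
          mul_le_mul (mul_le_mul_of_nonneg_right e5 (norm_nonneg _)) e6 (Real.exp_pos _).le (by positivity)
      _ = _ := mul_one _
  · intro K η m ρ f g hη hη' hm hs hf
    obtain ⟨A, -, hA1, hA2, hA3⟩ := hf
    set s : ℝ := R ^ (-(1 / 2) + η) with hsdef
    have hs0 : 0 < s := by positivity
    have hfA : ∀ v, ‖f v‖ = ‖A v‖ := by
      intro v
      rw [hA3, norm_mul, Complex.norm_exp_ofReal_mul_I, one_mul]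
    have hAm : ∀ v, ‖A v‖ ≤ m := by
      intro v
      have := hA2 0 (Nat.zero_le _) v
      rwa [norm_iteratedFDeriv_zero, pow_zero, mul_one] at this
    have hsup : ∀ v, f v ≠ 0 → ‖v‖ ≤ s := by
      intro v hv
      apply hA1
      intro h
      apply hv
      rw [← norm_eq_zero, hfA, h, norm_zero]
    have hvol : volume (Metric.closedBall (0 : ℂ) s) ≠ ⊤ := (measure_closedBall_lt_top).ne
    have e1 := VNP_int hVCD hVCM g (fun v => ‖f v‖ ^ 2) ((Metric.closedBall (0 : ℂ) s).indicator fun _ => m ^ 2) (s ^ 2) (by positivity)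
      (by nlinarith) (fun v => by positivity) ?_ ?_ (fun v => indicator_nonneg (fun _ _ => by positivity) _)
      ((integrable_indicator_iff measurableSet_closedBall).2 (integrableOn_const hvol))
    · unfold nn
      rw [setIntegral_univ]
      refine e1.trans ?_
      rw [integral_indicator measurableSet_closedBall, setIntegral_const, smul_eq_mul]
      have e2 : volume.real (Metric.closedBall (0 : ℂ) s) = Real.pi * s ^ 2 := by
        rw [Measure.real, Complex.volume_closedBall, ENNReal.toReal_mul, ENNReal.toReal_pow, ENNReal.toReal_ofReal hs0.le]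
        simp [mul_comm]
      rw [e2]
      have e3 : s ^ 2 ≤ 1 / 16 := by nlinarith
      have e4 := Real.pi_lt_d2
      have e5 : 0 ≤ m ^ 2 * s ^ 2 := by positivity
      calc (1 + s ^ 2) * (Real.pi * s ^ 2 * m ^ 2) = ((1 + s ^ 2) * Real.pi) * (m ^ 2 * s ^ 2) := by ring
        _ ≤ 8 * (m ^ 2 * s ^ 2) := by
            refine mul_le_mul_of_nonneg_right ?_ e5
            nlinarith
        _ = _ := by ring
    · intro v hv
      have : f v ≠ 0 := fun h => hv (by rw [h]; simp)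
      exact pow_le_pow_left₀ (norm_nonneg _) (hsup v this) 2
    · intro v
      by_cases hv : v ∈ Metric.closedBall (0 : ℂ) s
      · rw [indicator_of_mem hv]
        rw [hfA]
        exact pow_le_pow_left₀ (norm_nonneg _) (hAm v) 2
      · rw [indicator_of_notMem hv]
        have : f v = 0 := by
          by_contra hcon
          exact hv (by simpa using hsup v hcon)
        rw [this]
        simp

end

end Pool.Agent.VN
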