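import Pool.Agent.helper74.VN.SpecA

/-!
# MP_07c750_an, project VN, row NYU: the unstable expansion is at most `C |det Y|` (compare helper66/VQ/VYU.lean)
-/

set_option autoImplicit false

open scoped MatrixGroups ContDiff Topology UpperHalfPlane ComplexConjugate ENNReal
open UpperHalfPlane MeasureTheory Filter Set

namespace Pool.Agent.VN

open Pool.Agent.RS Pool.Agent.VQ

theorem NYU_sq {x k : ℝ} (h : |x| ≤ k) : x ^ 2 ≤ k ^ 2 := by
  rw [← sq_abs x]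
  exact pow_le_pow_left₀ (abs_nonneg x) h 2

theorem NYU_A (C r n1 n2 k : ℝ) (hC : 1 ≤ C) (hr : 0 < r) (hr' : r ≤ C) (hn1 : |n1| ≤ C)
    (hn2 : |n2| ≤ C) (hk : k * r = n2 / 2) :
    Real.sqrt (r ^ 2 + (-(k / 2 + -(k / 2))) ^ 2 +
      ((n1 * r - n2 * (k / 2 + -(k / 2))) / (2 * r)) ^ 2 + (r * (k / 2 - -(k / 2))) ^ 2) ≤ 2 * C := by
  have h0 : k / 2 + -(k / 2) = 0 := by ring
  have h1 : r * (k / 2 - -(k / 2)) = n2 / 2 := by
    rw [← hk]
    ring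
  have h2 : (n1 * r - n2 * 0) / (2 * r) = n1 / 2 := by
    field_simp
    ring
  rw [h0, h1, h2, Real.sqrt_le_iff]
  refine ⟨by linarith, ?_⟩
  have e1 : r ^ 2 ≤ C ^ 2 := pow_le_pow_left₀ hr.le hr' 2
  have e2 := NYU_sq hn1
  have e3 := NYU_sq hn2
  nlinarith

theorem NYU_B (C r n1 n2 x b c : ℝ) (hC : 1 ≤ C) (hr : 1 / C ≤ r) (hr' : r ≤ C) (hn1 : |n1| ≤ C)
    (hn2 : |n2| ≤ C) (hx : |x| ≤ 1) (hb : |b| ≤ 1) (hc : |c| ≤ 1) :
    Real.sqrt (x ^ 2 + (-(b + c)) ^ 2 + ((n1 * x - n2 * (b + c)) / (2 * r)) ^ 2 +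
      (r * (b - c)) ^ 2) ≤ 4 * C ^ 2 := by
  have hC0 : 0 < C := by linarith
  have hr0 : 0 < r := lt_of_lt_of_le (by positivity) hr
  rw [Real.sqrt_le_iff]
  refine ⟨by positivity, ?_⟩
  have hbc : |b + c| ≤ 2 := (abs_add_le b c).trans (by linarith)
  have hbc' : |b - c| ≤ 2 := (abs_sub b c).trans (by linarith)
  have e1 : x ^ 2 ≤ 1 ^ 2 := NYU_sq hx
  have e2 : (-(b + c)) ^ 2 ≤ 2 ^ 2 := NYU_sq (by rwa [abs_neg])
  have e3 : ((n1 * x - n2 * (b + c)) / (2 * r)) ^ 2 ≤ (2 * C ^ 2) ^ 2 := by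
    refine NYU_sq ?_
    have f1 : |n1 * x - n2 * (b + c)| ≤ 3 * C := by
      refine (abs_sub _ _).trans ?_
      rw [abs_mul, abs_mul]
      have g1 := mul_le_mul hn1 hx (abs_nonneg _) hC0.le
      have g2 := mul_le_mul hn2 hbc (abs_nonneg _) hC0.le
      linarith
    rw [abs_div, abs_of_pos (by positivity : (0 : ℝ) < 2 * r), div_le_iff₀ (by positivity)]
    have f2 : 1 ≤ C * r := by
      rw [div_le_iff₀ hC0] at hr
      linarith
    nlinarith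
  have e4 : (r * (b - c)) ^ 2 ≤ (C * 2) ^ 2 := by
    refine NYU_sq ?_
    rw [abs_mul]
    exact mul_le_mul (by rw [abs_of_nonneg hr0.le]; exact hr') hbc' (abs_nonneg _) hC0.le
  have hC2 : 1 ≤ C ^ 2 := one_le_pow₀ hC
  nlinarith

theorem NYU_proof (hNYC : NYC_stmt) (hNYV : NYV_stmt) (hNUB : NUB_stmt) : NYU_stmt := by
  intro k hk
  obtain ⟨C, hC, hUB⟩ := hNUB k hk
  have hC0 : 0 < C := by linarith
  refine ⟨8 * C ^ 4, by nlinarith [one_le_pow₀ hC (n := 4)], ?_⟩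
  intro Γ B D hD E g x b c hE hS hx hb hc t
  obtain ⟨h1, h2⟩ := hNYV Γ k B D hD E g hE
  have s1 := h1 _ _ _ h2
  have s2 := h1 x b c hS
  have key := hNYC Γ k B D hD E g _ _ _ _ hE s1 s2 t
  obtain ⟨-, hn, hr, -⟩ := hUB Γ B D.U hD.pot
  obtain ⟨r1, r2, -, -, -, -⟩ := hr E (D.fl E t g) hE
  obtain ⟨q1, q2, -, -, q5, -⟩ := hr E (D.fl E 0 g) hE
  obtain ⟨-, n1', n2', -⟩ := hn (D.fl E 0 g)
  simp only [Matrix.cons_val_zero, Matrix.cons_val_one] at key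
  have hq0 : 0 < rho D.U E (D.fl E 0 g) := lt_of_lt_of_le (by positivity) q1
  have hr0 : 0 < rho D.U E (D.fl E t g) := lt_of_lt_of_le (by positivity) r1
  have hA := NYU_A C _ _ _ _ hC hq0 q2 n1' n2' q5
  have hB := NYU_B C _ _ _ (x 0) (b 0) (c 0) hC q1 q2 n1' n2' hx hb hc
  have hprod := mul_le_mul hA hB (Real.sqrt_nonneg _) (by positivity)
  have h3 := key.trans (mul_le_mul_of_nonneg_left hprod (norm_nonneg _))
  have h4 : |rho D.U E (D.fl E t g) * -(b t + c t) -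
      -(kap D.U E (D.fl E t g) / 2 + -(kap D.U E (D.fl E t g) / 2)) * x t| =
      rho D.U E (D.fl E t g) * |b t + c t| := by
    rw [show rho D.U E (D.fl E t g) * -(b t + c t) -
      -(kap D.U E (D.fl E t g) / 2 + -(kap D.U E (D.fl E t g) / 2)) * x t =
      -(rho D.U E (D.fl E t g) * (b t + c t)) by ring, abs_neg, abs_mul,
      abs_of_nonneg hr0.le]
  rw [h4] at h3
  have h5 : |b t + c t| ≤ C * (rho D.U E (D.fl E t g) * |b t + c t|) := by
    have f1 : 1 ≤ C * rho D.U E (D.fl E t g) := by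
      rw [div_le_iff₀ hC0] at r1
      linarith
    nlinarith [abs_nonneg (b t + c t)]
  refine h5.trans ((mul_le_mul_of_nonneg_left h3 hC0.le).trans (le_of_eq ?_))
  ring

end Pool.Agent.VN
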