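import Pool.Agent.helper84.VN.Spec4n

/-!
# Project VN (MP_07c750_an), row UR4: recentering by a time shift
-/

set_option autoImplicit false

open scoped MatrixGroups ContDiff Topology UpperHalfPlane ComplexConjugate ENNReal
open UpperHalfPlane MeasureTheory Filter Set

namespace Pool.Agent.VN

open Pool.Agent.RS Pool.Agent.VQ
open Pool.Agent.VQE (nm)

theorem UR4_ent (x : SL(2, ℝ)) (α : ℝ) (h : nm x ≤ α) :
    |x.1 0 0 - 1| ≤ α ∧ |x.1 0 1| ≤ α ∧ |x.1 1 0| ≤ α ∧ |x.1 1 1 - 1| ≤ α := by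
  unfold nm at h
  rw [max_le_iff, max_le_iff, max_le_iff] at h
  exact ⟨h.1.1, h.1.2, h.2.1, h.2.2⟩

theorem UR4_mul1 (a b c d α β : ℝ) (ha : |a - 1| ≤ α) (hb : |b| ≤ α) (hc : |c| ≤ β) (hd : |d - 1| ≤ β) :
    |a * d + b * c - 1| ≤ α + β + 2 * (α * β) := by
  have e : a * d + b * c - 1 = (a - 1) + (d - 1) + (a - 1) * (d - 1) + b * c := by ring
  rw [e]
  have hα : 0 ≤ α := (abs_nonneg _).trans ha
  have h1 : |(a - 1) * (d - 1)| ≤ α * β := by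
    rw [abs_mul]
    exact mul_le_mul ha hd (abs_nonneg _) hα
  have h2 : |b * c| ≤ α * β := by
    rw [abs_mul]
    exact mul_le_mul hb hc (abs_nonneg _) hα
  have h3 := abs_add_le ((a - 1) + (d - 1) + (a - 1) * (d - 1)) (b * c)
  have h4 := abs_add_le ((a - 1) + (d - 1)) ((a - 1) * (d - 1))
  have h5 := abs_add_le (a - 1) (d - 1)
  linarith

theorem UR4_mul2 (a b d p α β : ℝ) (ha : |a - 1| ≤ α) (hb : |b| ≤ α) (hd : |d - 1| ≤ β) (hp : |p| ≤ β) :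
    |a * p + b * d| ≤ α + β + 2 * (α * β) := by
  have e : a * p + b * d = p + b + (a - 1) * p + b * (d - 1) := by ring
  rw [e]
  have hα : 0 ≤ α := (abs_nonneg _).trans ha
  have h1 : |(a - 1) * p| ≤ α * β := by
    rw [abs_mul]
    exact mul_le_mul ha hp (abs_nonneg _) hα
  have h2 : |b * (d - 1)| ≤ α * β := by
    rw [abs_mul]
    exact mul_le_mul hb hd (abs_nonneg _) hα
  have h3 := abs_add_le (p + b + (a - 1) * p) (b * (d - 1))
  have h4 := abs_add_le (p + b) ((a - 1) * p)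
  have h5 := abs_add_le p b
  linarith

/-- entries of a matrix times the vector field -/
theorem UR4_XX (U : ℍ → ℝ) (E : ℝ) (g : SL(2, ℝ)) (M : Matrix (Fin 2) (Fin 2) ℝ) :
    (M * XX U E g) 0 0 = M 0 0 * rho U E g / 2 - M 0 1 * kap U E g / 2 ∧
    (M * XX U E g) 1 1 = M 1 0 * kap U E g / 2 - M 1 1 * rho U E g / 2 := by
  unfold XX A0 K0
  refine ⟨?_, ?_⟩ <;>
  · rw [Matrix.mul_apply, Fin.sum_univ_two]
    simp only [Matrix.add_apply, Matrix.smul_apply, Matrix.of_apply, Matrix.cons_val', Matrix.cons_val_zero, Matrix.cons_val_one, Matrix.cons_val_fin_one, smul_eq_mul]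
    ring

theorem UR4_low (C r κ a b c d δ : ℝ) (hC : 1 ≤ C) (hδ : δ ≤ 1 / (4 * C ^ 2)) (hr : 1 / C ≤ r) (hκ : |κ| ≤ C)
    (ha : |a - 1| ≤ δ) (hb : |b| ≤ δ) (hc : |c| ≤ δ) (hd : |d - 1| ≤ δ) :
    1 / (2 * C) ≤ (a * r / 2 - b * κ / 2) - (c * κ / 2 - d * r / 2) := by
  have hC0 : 0 < C := by linarith
  have hδ0 : 0 ≤ δ := (abs_nonneg _).trans ha
  have h1 : (1 - δ) * r ≤ (a + d) / 2 * r := by
    apply mul_le_mul_of_nonneg_right _ (le_trans (by positivity) hr)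
    rw [abs_le] at ha hd
    linarith
  have h2 : (b + c) / 2 * κ ≤ δ * C := by
    have h3 : |(b + c) / 2 * κ| ≤ δ * C := by
      rw [abs_mul]
      apply mul_le_mul _ hκ (abs_nonneg _) hδ0
      rw [abs_le] at hb hc ⊢
      constructor <;> linarith
    exact (le_abs_self _).trans h3
  have h4 : δ ≤ 1 / 4 := by
    refine hδ.trans ?_
    rw [div_le_div_iff₀ (by positivity) (by norm_num)]
    nlinarith
  have h5 : (1 - δ) * (1 / C) ≤ (1 - δ) * r := mul_le_mul_of_nonneg_left hr (by linarith)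
  have h6 : δ * C ≤ 1 / (4 * C) := by
    calc δ * C ≤ 1 / (4 * C ^ 2) * C := mul_le_mul_of_nonneg_right hδ hC0.le
      _ = 1 / (4 * C) := by
        field_simp
  have h7 : δ * (1 / C) ≤ 1 / 4 * (1 / C) := mul_le_mul_of_nonneg_right h4 (by positivity)
  have h8 : 1 / (2 * C) = 1 / 2 * (1 / C) := by
    field_simp
  have h9 : 1 / (4 * C) = 1 / 4 * (1 / C) := by
    field_simp
  rw [h8]
  rw [h9] at h6
  linarith

theorem UR4_proof (hSN4 : SN4_stmt) : UR4_stmt := by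
  intro k C
  obtain ⟨K0, hK0, hSN⟩ := hSN4 k C
  by_cases hC : 1 ≤ C
  swap
  · exact ⟨1, le_refl _, fun D hFN => absurd hFN.C1 hC⟩
  have hC0 : 0 < C := by linarith
  have hK00 : 0 < K0 := by linarith
  have hC3 : 1 ≤ C ^ 3 := one_le_pow₀ hC
  have hC2 : 1 ≤ C ^ 2 := one_le_pow₀ hC
  have hCC : C ≤ C ^ 3 := by nlinarith
  have hC23 : C ^ 2 ≤ C ^ 3 := by nlinarith
  have hCK : C ^ 3 ≤ C ^ 3 * K0 := by nlinarith
  have hKK : K0 ≤ C ^ 3 * K0 := by nlinarith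
  refine ⟨32 * C ^ 3 * K0, by nlinarith, ?_⟩
  intro D hFN E' g g' x hE' hx hnm
  have hK : 0 < 32 * C ^ 3 * K0 := by positivity
  have hder : ∀ t : ℝ, ∀ i j, HasDerivAt (fun s => (g⁻¹ * D.fl E' s g').1 i j) (((g⁻¹ * D.fl E' t g').1 * XX D.U E' (D.fl E' t g')) i j) t := by
    intro t i j
    have h1 : ∀ s, (g⁻¹ * D.fl E' s g').1 i j = ∑ k, (g⁻¹).1 i k * (D.fl E' s g').1 k j := by
      intro s
      rw [Matrix.SpecialLinearGroup.coe_mul, Matrix.mul_apply]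
    have h2 : ((g⁻¹ * D.fl E' t g').1 * XX D.U E' (D.fl E' t g')) i j = ∑ k, (g⁻¹).1 i k * ((D.fl E' t g').1 * XX D.U E' (D.fl E' t g')) k j := by
      rw [Matrix.SpecialLinearGroup.coe_mul, Matrix.mul_assoc, Matrix.mul_apply]
    simp only [h1]
    rw [h2]
    exact HasDerivAt.fun_sum fun k _ => (hFN.der E' t g' hE' k j).const_mul _
  have hX0 : g⁻¹ * D.fl E' 0 g' = x := by rw [hFN.zero, hx]
  -- the size of `x` and the range of `s`
  have hα : nm x ≤ 1 / (16 * C ^ 2) := by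
    refine hnm.trans (one_div_le_one_div_of_le (by positivity) ?_)
    nlinarith
  have hα2 : nm x ≤ 1 / (16 * C ^ 2) ∧ 1 / (16 * C ^ 2) ≤ 1 / 16 := by
    refine ⟨hα, one_div_le_one_div_of_le (by norm_num) ?_⟩
    linarith
  -- bounds
  have hbd : ∀ s : ℝ, |s| ≤ 1 / (8 * C ^ 2 * K0) → |(g⁻¹ * D.fl E' s g').1 0 0 - 1| ≤ 1 / (4 * C ^ 2) ∧ |(g⁻¹ * D.fl E' s g').1 0 1| ≤ 1 / (4 * C ^ 2) ∧
      |(g⁻¹ * D.fl E' s g').1 1 0| ≤ 1 / (4 * C ^ 2) ∧ |(g⁻¹ * D.fl E' s g').1 1 1 - 1| ≤ 1 / (4 * C ^ 2) := by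
    intro s hs
    have hs1 : |s| ≤ 1 / K0 := by
      refine hs.trans (one_div_le_one_div_of_le hK00 ?_)
      nlinarith
    have h1 := (hSN D hFN E' s g' _ hE' hs1 rfl).1
    have h2 : nm (g'⁻¹ * D.fl E' s g') ≤ 1 / (8 * C ^ 2) := by
      refine h1.trans ?_
      calc K0 * |s| ≤ K0 * (1 / (8 * C ^ 2 * K0)) := mul_le_mul_of_nonneg_left hs hK00.le
        _ = 1 / (8 * C ^ 2) := by field_simp
    obtain ⟨t1, t2, t3, t4⟩ := UR4_ent _ _ h2
    obtain ⟨x1, x2, x3, x4⟩ := UR4_ent _ _ hα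
    have h3 : g⁻¹ * D.fl E' s g' = x * (g'⁻¹ * D.fl E' s g') := by
      rw [hx]
      group
    rw [h3]
    generalize g'⁻¹ * D.fl E' s g' = y at *
    have e : ∀ i j, (x * y).1 i j = x.1 i 0 * y.1 0 j + x.1 i 1 * y.1 1 j := by
      intro i j
      rw [Matrix.SpecialLinearGroup.coe_mul, Matrix.mul_apply, Fin.sum_univ_two]
    have hδ : 1 / (16 * C ^ 2) + 1 / (8 * C ^ 2) + 2 * (1 / (16 * C ^ 2) * (1 / (8 * C ^ 2))) ≤ 1 / (4 * C ^ 2) := by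
      have u0 : 0 < 1 / C ^ 2 := by positivity
      have u1 : 1 / C ^ 2 ≤ 1 := by
        rw [div_le_one (by positivity)]
        exact hC2
      have e1 : 1 / (16 * C ^ 2) = 1 / 16 * (1 / C ^ 2) := by field_simp
      have e2 : 1 / (8 * C ^ 2) = 1 / 8 * (1 / C ^ 2) := by field_simp
      have e3 : 1 / (4 * C ^ 2) = 1 / 4 * (1 / C ^ 2) := by field_simp
      rw [e1, e2, e3]
      nlinarith
    rw [e, e, e, e]
    refine ⟨(UR4_mul1 _ _ _ _ _ _ x1 x2 t3 t1).trans hδ, (UR4_mul2 _ _ _ _ _ _ x1 x2 t4 t2).trans hδ, ?_, ?_⟩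
    · rw [add_comm]
      exact (UR4_mul2 _ _ _ _ _ _ x4 x3 t1 t3).trans hδ
    · rw [add_comm (x.1 1 0 * y.1 0 1)]
      exact (UR4_mul1 _ _ _ _ _ _ x4 x3 t2 t4).trans hδ
  -- the difference of the diagonal entries
  let ψ : ℝ → ℝ := fun s => (g⁻¹ * D.fl E' s g').1 0 0 - (g⁻¹ * D.fl E' s g').1 1 1
  let ψ' : ℝ → ℝ := fun t => ((g⁻¹ * D.fl E' t g').1 * XX D.U E' (D.fl E' t g')) 0 0 - ((g⁻¹ * D.fl E' t g').1 * XX D.U E' (D.fl E' t g')) 1 1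
  have hψ : ∀ t, HasDerivAt ψ (ψ' t) t := fun t => (hder t 0 0).sub (hder t 1 1)
  have hψc : Continuous ψ := continuous_iff_continuousAt.2 fun t => (hψ t).continuousAt
  have hψ' : ∀ t : ℝ, |t| ≤ 1 / (8 * C ^ 2 * K0) → 1 / (2 * C) ≤ ψ' t := by
    intro t ht
    obtain ⟨b1, b2, b3, b4⟩ := hbd t ht
    obtain ⟨e1, e4⟩ := UR4_XX D.U E' (D.fl E' t g') (g⁻¹ * D.fl E' t g').1
    change 1 / (2 * C) ≤ ((g⁻¹ * D.fl E' t g').1 * XX D.U E' (D.fl E' t g')) 0 0 - ((g⁻¹ * D.fl E' t g').1 * XX D.U E' (D.fl E' t g')) 1 1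
    rw [e1, e4]
    exact UR4_low C _ _ _ _ _ _ _ hC le_rfl (hFN.ro E' _ hE').1 (hFN.ka E' _ hE') b1 b2 b3 b4
  have hmvt : ∀ s s' : ℝ, -(1 / (8 * C ^ 2 * K0)) ≤ s → s ≤ s' → s' ≤ 1 / (8 * C ^ 2 * K0) → (s' - s) / (2 * C) ≤ ψ s' - ψ s := by
    intro s s' h1 h2 h3
    rcases h2.eq_or_lt with h4 | h4
    · rw [h4]
      simp
    · obtain ⟨c, hc, e1⟩ := exists_hasDerivAt_eq_slope ψ ψ' h4 hψc.continuousOn fun t _ => hψ t
      have g1 := hψ' c (by rw [abs_le]; constructor <;> linarith [hc.1, hc.2])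
      rw [e1, le_div_iff₀ (by linarith)] at g1
      calc (s' - s) / (2 * C) = 1 / (2 * C) * (s' - s) := by ring
        _ ≤ _ := g1
  have hψ0 : ψ 0 = x.1 0 0 - x.1 1 1 := by
    change (g⁻¹ * D.fl E' 0 g').1 0 0 - (g⁻¹ * D.fl E' 0 g').1 1 1 = _
    rw [hX0]
  have hψ0b : |ψ 0| ≤ 2 / (32 * C ^ 3 * K0) := by
    obtain ⟨x1, x2, x3, x4⟩ := UR4_ent _ _ hnm
    rw [hψ0]
    have := abs_sub (x.1 0 0 - 1) (x.1 1 1 - 1)
    have e : x.1 0 0 - x.1 1 1 = (x.1 0 0 - 1) - (x.1 1 1 - 1) := by ring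
    have e2 : 2 / (32 * C ^ 3 * K0) = 1 / (32 * C ^ 3 * K0) + 1 / (32 * C ^ 3 * K0) := by ring
    rw [e, e2]
    linarith
  have hrange : 2 * C * |ψ 0| ≤ 1 / (8 * C ^ 2 * K0) := by
    calc 2 * C * |ψ 0| ≤ 2 * C * (2 / (32 * C ^ 3 * K0)) := mul_le_mul_of_nonneg_left hψ0b (by positivity)
      _ = 1 / (8 * C ^ 2 * K0) := by
        field_simp
        norm_num
  have hS : 0 ≤ 2 * C * |ψ 0| := by positivity
  have hzero : ∃ s : ℝ, |s| ≤ 2 * C * |ψ 0| ∧ ψ s = 0 := by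
    have g1 := hmvt 0 (2 * C * |ψ 0|) (by linarith) hS hrange
    have g2 := hmvt (-(2 * C * |ψ 0|)) 0 (by linarith) (by linarith) (by linarith)
    have e1 : (2 * C * |ψ 0| - 0) / (2 * C) = |ψ 0| := by
      field_simp
      ring
    have e2 : (0 - -(2 * C * |ψ 0|)) / (2 * C) = |ψ 0| := by
      field_simp
      ring
    rw [e1] at g1
    rw [e2] at g2
    have n1 := neg_abs_le (ψ 0)
    have n2 := le_abs_self (ψ 0)
    have hm : (0 : ℝ) ∈ Icc (ψ (-(2 * C * |ψ 0|))) (ψ (2 * C * |ψ 0|)) := ⟨by linarith, by linarith⟩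
    obtain ⟨s, hs, hs0⟩ := intermediate_value_Icc (show -(2 * C * |ψ 0|) ≤ 2 * C * |ψ 0| by linarith) hψc.continuousOn hm
    exact ⟨s, abs_le.2 ⟨hs.1, hs.2⟩, hs0⟩
  have hsub : 1 / (32 * C ^ 3 * K0) ≤ 1 / (8 * C ^ 2 * K0) := by
    refine one_div_le_one_div_of_le (by positivity) ?_
    nlinarith
  refine ⟨?_, ?_⟩
  · obtain ⟨s, hs, hs0⟩ := hzero
    have hs2 : |s| ≤ 1 / (8 * C ^ 2 * K0) := hs.trans hrange
    refine ⟨s, g⁻¹ * D.fl E' s g', rfl, ?_, sub_eq_zero.1 hs0, ?_⟩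
    · rw [← hψ0]
      refine hs.trans (mul_le_mul_of_nonneg_right ?_ (abs_nonneg _))
      nlinarith
    · have h1 := (abs_le.1 (hbd s hs2).1).1
      have h2 : 1 / (4 * C ^ 2) ≤ 1 / 4 := one_div_le_one_div_of_le (by norm_num) (by linarith)
      linarith
  · intro s s' h1 h2 h3
    have h4 := hmvt s s' (by linarith) h2 (by linarith)
    change (s' - s) / (32 * C ^ 3 * K0) ≤ ψ s' - ψ s
    refine le_trans ?_ h4
    apply div_le_div_of_nonneg_left (by linarith) (by positivity)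
    nlinarith

end Pool.Agent.VN
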